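import Pool.Agent.N414.LR.Stm

/-!
# LR/WWW: a wandering vector gives a unitary of `L(Λ)`
-/

set_option autoImplicit false

namespace Pool.Agent.N499.LR.WWW

open Pool.Agent.H494R3.GT Pool.Agent.N557.QW Pool.Agent.N169.QWP
open Pool.Agent.N414.LR

noncomputable section

/-- the operator with prescribed orthonormal columns -/
theorem exists_op {P : Type} (f : P → L2 P) (hf : Orthonormal ℂ f) :
    ∃ W : Op P, ∀ x, W (dl x) = f x := by
  classical
  refine ⟨(hf.orthogonalFamily.linearIsometry).toContinuousLinearMap, fun x => ?_⟩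
  have := hf.orthogonalFamily.linearIsometry_apply_single (i := x) (1 : ℂ)
  simp only [dl]
  simp

theorem inner_dl_dl {P : Type} (x y : P) [Decidable (x = y)] :
    inner ℂ (dl x : L2 P) (dl y) = if x = y then (1 : ℂ) else 0 := dl_inner x y

/-- an operator with orthonormal columns is an isometry -/
theorem star_mul_self {P : Type} {W : Op P} (h : Orthonormal ℂ fun x => W (dl x)) :
    star W * W = 1 := by
  classical
  apply op_ext_inner
  intro x y
  rw [mul_ap, ContinuousLinearMap.star_eq_adjoint, ContinuousLinearMap.adjoint_inner_right]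
  have h1 := (orthonormal_iff_ite.1 h) x y
  rw [h1]
  change _ = inner ℂ (dl x) (dl y)
  rw [dl_inner]

theorem inner_self_eq {P : Type} (v : L2 P) :
    inner ℂ v v = ∑' s, (starRingEnd ℂ) (v s) * v s := by
  rw [lp.inner_eq_tsum]
  refine tsum_congr fun s => ?_
  rw [RCLike.inner_apply, mul_comm]

theorem inner_eq' {P : Type} (v w : L2 P) :
    inner ℂ v w = ∑' s, (starRingEnd ℂ) (v s) * w s := by
  rw [lp.inner_eq_tsum]
  refine tsum_congr fun s => ?_
  rw [RCLike.inner_apply, mul_comm]

theorem star_left {P : Type} (y : Op P) (v w : L2 P) :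
    inner ℂ (star y v) w = (inner ℂ v (y w) : ℂ) := by
  rw [ContinuousLinearMap.star_eq_adjoint, ContinuousLinearMap.adjoint_inner_left]

/-- finiteness -/
theorem fin_unit {P : Type} {y : Op P} (h : star y * y = 1)
    (hn : ∀ t, inner ℂ (star y (dl t)) (star y (dl t)) = (1 : ℂ)) : y * star y = 1 := by
  classical
  apply op_ext
  intro t
  rw [mul_ap]
  change y (star y (dl t)) = dl t
  have hy : star y (y (star y (dl t))) = star y (dl t) := by
    have := congrArg (fun z : Op P => z (star y (dl t))) h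
    exact this
  have e1 : inner ℂ (dl t) (y (star y (dl t))) = (1 : ℂ) := by
    rw [← star_left, hn t]
  have e2 : inner ℂ (y (star y (dl t))) (y (star y (dl t))) = (1 : ℂ) := by
    rw [← star_left, hy, hn t]
  have e3 : inner ℂ (y (star y (dl t))) (dl t) = (1 : ℂ) := by
    rw [← inner_conj_symm, e1, map_one]
  have e4 : inner ℂ (dl t : L2 P) (dl t) = (1 : ℂ) := by
    rw [dl_inner, if_pos rfl]
  have e5 : inner ℂ (y (star y (dl t)) - dl t) (y (star y (dl t)) - dl t) = (0 : ℂ) := by
    rw [inner_sub_left, inner_sub_right, inner_sub_right, e1, e2, e3, e4]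
    ring
  rw [inner_self_eq_zero] at e5
  exact sub_eq_zero.1 e5

variable {Λ : Type} [Group Λ]

theorem fin_com {y : Op Λ} (hy : ∀ g : Λ, lam g * y = y * lam g) (h : star y * y = 1) :
    y * star y = 1 := by
  classical
  refine fin_unit h fun t => ?_
  have h1 : inner ℂ (y (dl 1)) (y (dl 1)) = (1 : ℂ) := by
    have h2 : inner ℂ (dl 1) ((star y * y) (dl 1)) = (1 : ℂ) := by
      rw [h]
      change inner ℂ (dl 1 : L2 Λ) (dl 1) = 1
      rw [dl_inner, if_pos rfl]
    rw [mul_ap, ContinuousLinearMap.star_eq_adjoint, ContinuousLinearMap.adjoint_inner_right] at h2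
    exact h2
  rw [inner_self_eq] at h1 ⊢
  rw [← h1]
  let σ : Equiv.Perm Λ :=
    { toFun := fun r => t * r⁻¹
      invFun := fun r => r⁻¹ * t
      left_inv := fun r => by group
      right_inv := fun r => by group }
  rw [← Equiv.tsum_eq σ]
  refine tsum_congr fun r => ?_
  rw [star_ap, com_coeff hy, com_coeff hy, starRingEnd_self_apply, mul_comm]
  have e : (σ r)⁻¹ * t = r := by
    change (t * r⁻¹)⁻¹ * t = r
    group
  rw [e, inv_one, one_mul]

theorem fin_LG {y : Op Λ} (hy : y ∈ LG Λ) (h : star y * y = 1) :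
    y * star y = 1 := by
  classical
  refine fin_unit h fun t => ?_
  have h1 : inner ℂ (y (dl 1)) (y (dl 1)) = (1 : ℂ) := by
    have h2 : inner ℂ (dl 1) ((star y * y) (dl 1)) = (1 : ℂ) := by
      rw [h]
      change inner ℂ (dl 1 : L2 Λ) (dl 1) = 1
      rw [dl_inner, if_pos rfl]
    rw [mul_ap, ContinuousLinearMap.star_eq_adjoint, ContinuousLinearMap.adjoint_inner_right] at h2
    exact h2
  rw [inner_self_eq] at h1 ⊢
  rw [← h1]
  let σ : Equiv.Perm Λ :=
    { toFun := fun r => r⁻¹ * t
      invFun := fun r => t * r⁻¹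
      left_inv := fun r => by group
      right_inv := fun r => by group }
  rw [← Equiv.tsum_eq σ]
  refine tsum_congr fun r => ?_
  rw [star_ap, LG_coeff hy, LG_coeff hy, starRingEnd_self_apply, mul_comm]
  have e : t * (σ r)⁻¹ = r := by
    change t * (r⁻¹ * t)⁻¹ = r
    group
  rw [e, inv_one, mul_one]

theorem lam_apply (g : Λ) (v : L2 Λ) (s : Λ) : (lam g v) s = v (g⁻¹ * s) := by
  rw [lam, UU_apply]
  rfl

theorem rgt_apply (g : Λ) (v : L2 Λ) (s : Λ) : (rgt g v) s = v (s * g⁻¹) := by
  rw [rgt, UU_apply]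
  rfl

theorem rgt_mul' (g s : Λ) (v : L2 Λ) : rgt g (rgt s v) = rgt (s * g) v := by
  apply vec_ext
  intro x
  rw [rgt_apply, rgt_apply, rgt_apply]
  group

theorem lam_mul' (g s : Λ) (v : L2 Λ) : lam g (lam s v) = lam (g * s) v := by
  rw [lam_mul]
  rfl

theorem main : S_WWW := by
  intro Λ _ ζ hζ hw
  classical
  -- the left translates
  have ho : Orthonormal ℂ fun h : Λ => lam h ζ := by
    rw [orthonormal_iff_ite]
    intro h k
    have e : inner ℂ (lam h ζ) (lam k ζ) = inner ℂ ζ (lam (h⁻¹ * k) ζ) := by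
      rw [← lam_mul', ← star_lam, ContinuousLinearMap.star_eq_adjoint,
        ContinuousLinearMap.adjoint_inner_right]
    rw [e]
    split_ifs with hk
    · rw [hk, inv_mul_cancel, lam_one]
      change inner ℂ ζ ζ = 1
      rw [inner_self_eq_norm_sq_to_K, hζ]
      simp
    · apply hw
      intro h1
      apply hk
      rwa [inv_mul_eq_one] at h1
  obtain ⟨W, hW⟩ := exists_op _ ho
  have hWo : Orthonormal ℂ fun x => W (dl x) := by
    simp only [hW]
    exact ho
  have hWs := star_mul_self hWo
  have hWl : ∀ g : Λ, lam g * W = W * lam g := by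
    intro g
    apply op_ext
    intro s
    rw [mul_ap, mul_ap, hW, lam_dl, hW, lam_mul']
  have hWW := fin_com hWl hWs
  -- the right translates
  have hr : Orthonormal ℂ fun h : Λ => rgt h ζ := by
    rw [orthonormal_iff_ite]
    intro h k
    have e1 : inner ℂ (star W (dl k⁻¹)) (star W (dl h⁻¹)) = (if h = k then 1 else 0 : ℂ) := by
      have e2 : inner ℂ (star W (dl k⁻¹)) (star W (dl h⁻¹)) =
          inner ℂ (dl k⁻¹) ((W * star W) (dl h⁻¹)) := by
        rw [mul_ap, star_left]
      rw [e2, hWW]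
      change inner ℂ (dl k⁻¹ : L2 Λ) (dl h⁻¹) = _
      rw [dl_inner]
      congr 1
      rw [inv_inj]
      exact propext ⟨fun h => h.symm, fun h => h.symm⟩
    rw [← e1, inner_eq', inner_eq', ← Equiv.tsum_eq (Equiv.inv Λ)]
    refine tsum_congr fun s => ?_
    rw [star_ap, star_ap, hW, lam_apply, lam_apply, rgt_apply, rgt_apply, starRingEnd_self_apply,
      mul_comm]
    simp
  obtain ⟨w, hww⟩ := exists_op _ hr
  have hwo : Orthonormal ℂ fun x => w (dl x) := by
    simp only [hww]
    exact hr
  have hws := star_mul_self hwo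
  have hwL : w ∈ LG Λ := by
    rw [mem_LG]
    intro g
    apply op_ext
    intro s
    rw [mul_ap, mul_ap, hww, rgt_dl, hww, rgt_mul']
  refine ⟨w, hwL, Unitary.mem_iff.2 ⟨hws, fin_LG hwL hws⟩, ?_⟩
  rw [hww]
  apply vec_ext
  intro s
  rw [rgt_apply, inv_one, mul_one]

end

end Pool.Agent.N499.LR.WWW
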